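import Pool.Agent.W5h51.SO.Unif

set_option autoImplicit false

open Filter Topology Set MeasureTheory

namespace Pool.Agent.W5h51.SP

open Pool.Agent.W5h51.SO

theorem chr_zero {d : ℕ} (x : Fin d → ℝ) : chr 0 x = 1 := by simp [chr]

theorem chr_neg {d : ℕ} (l x : Fin d → ℝ) : chr (-l) x = (starRingEnd ℂ) (chr l x) := by
  unfold chr
  rw [← Complex.exp_conj]
  congr 1
  simp only [map_mul, Complex.conj_ofReal, Complex.conj_I, map_ofNat, Pi.neg_apply, neg_mul,
    Finset.sum_neg_distrib, Complex.ofReal_neg]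
  ring

theorem chr_add_left {d : ℕ} (l l' x : Fin d → ℝ) : chr (l + l') x = chr l x * chr l' x := by
  unfold chr
  rw [← Complex.exp_add]
  congr 1
  rw [← mul_add]
  congr 1
  rw [← Complex.ofReal_add]
  congr 1
  rw [← Finset.sum_add_distrib]
  refine Finset.sum_congr rfl fun i _ => ?_
  simp only [Pi.add_apply]
  ring

theorem chr_sub_left {d : ℕ} (l l' x : Fin d → ℝ) :
    chr (l - l') x = chr l x * (starRingEnd ℂ) (chr l' x) := by
  rw [sub_eq_add_neg, chr_add_left, chr_neg]

/-- A finite measure is determined by the integrals of the characters. -/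
theorem ext_chr {d : ℕ} {P P' : Measure (Fin d → ℝ)} [IsFiniteMeasure P] [IsFiniteMeasure P']
    (h : ∀ l : Fin d → ℝ, ∫ x, chr l x ∂P = ∫ x, chr l x ∂P') : P = P' := by
  apply Measure.ext_of_charFunDual
  funext L
  rw [charFunDual_apply, charFunDual_apply]
  have h1 : ∀ x : Fin d → ℝ, Complex.exp (L x * Complex.I) =
      chr (fun i => L (Pi.single i 1) / (2 * Real.pi)) x := by
    intro x
    unfold chr
    congr 1
    have h2 : L x = ∑ i, L (Pi.single i 1) * x i := by
      conv_lhs => rw [← Finset.univ_sum_single x]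
      rw [map_sum]
      refine Finset.sum_congr rfl fun i _ => ?_
      have : (Pi.single i (x i) : Fin d → ℝ) = x i • (Pi.single i 1 : Fin d → ℝ) := by
        rw [← Pi.single_smul]
        simp
      rw [this, map_smul, smul_eq_mul, mul_comm]
    rw [h2]
    push_cast
    rw [Finset.sum_mul, Finset.mul_sum]
    refine Finset.sum_congr rfl fun i _ => ?_
    have hpi : (Real.pi : ℂ) ≠ 0 := by exact_mod_cast Real.pi_ne_zero
    field_simp
  simp_rw [h1]
  exact h _

/-- An integrable real function which is orthogonal to all characters vanishes. -/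
theorem real_zero {d : ℕ} {μ : Measure (Fin d → ℝ)} [IsFiniteMeasure μ] {r : (Fin d → ℝ) → ℝ}
    (hr : Integrable r μ) (h : ∀ l : Fin d → ℝ, ∫ x, chr l x * (r x : ℂ) ∂μ = 0) : r =ᵐ[μ] 0 := by
  set P : Measure (Fin d → ℝ) := μ.withDensity fun x => ENNReal.ofReal (r x) with hP
  set P' : Measure (Fin d → ℝ) := μ.withDensity fun x => ENNReal.ofReal (-r x) with hP'
  have hf : IsFiniteMeasure P := isFiniteMeasure_withDensity_ofReal hr.2
  have hf' : IsFiniteMeasure P' := isFiniteMeasure_withDensity_ofReal hr.neg.2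
  have hm : AEMeasurable (fun x => ENNReal.ofReal (r x)) μ := hr.1.aemeasurable.ennreal_ofReal
  have hm' : AEMeasurable (fun x => ENNReal.ofReal (-r x)) μ := hr.neg.1.aemeasurable.ennreal_ofReal
  have hbdd : ∀ l : Fin d → ℝ, ∀ s : (Fin d → ℝ) → ℝ, Integrable s μ →
      Integrable (fun x => chr l x * ((max (s x) 0 : ℝ) : ℂ)) μ := by
    intro l s hs
    have h1 : Integrable (fun x => ((max (s x) 0 : ℝ) : ℂ)) μ := hs.pos_part.ofReal
    refine h1.bdd_mul (c := 1) ((continuous_chr l).aestronglyMeasurable)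
      (Eventually.of_forall fun x => (norm_chr l x).le)
  have hint : ∀ l : Fin d → ℝ, ∫ x, chr l x ∂P = ∫ x, chr l x * ((max (r x) 0 : ℝ) : ℂ) ∂μ := by
    intro l
    rw [hP, integral_withDensity_eq_integral_toReal_smul₀ hm
      (Eventually.of_forall fun x => ENNReal.ofReal_lt_top)]
    apply integral_congr_ae
    refine Eventually.of_forall fun x => ?_
    simp only
    rw [ENNReal.toReal_ofReal', Complex.real_smul, mul_comm]
  have hint' : ∀ l : Fin d → ℝ, ∫ x, chr l x ∂P' = ∫ x, chr l x * ((max (-r x) 0 : ℝ) : ℂ) ∂μ := by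
    intro l
    rw [hP', integral_withDensity_eq_integral_toReal_smul₀ hm'
      (Eventually.of_forall fun x => ENNReal.ofReal_lt_top)]
    apply integral_congr_ae
    refine Eventually.of_forall fun x => ?_
    simp only
    rw [ENNReal.toReal_ofReal', Complex.real_smul, mul_comm]
  have hPP : P = P' := by
    apply ext_chr
    intro l
    have hneg : Integrable (fun x => chr l x * ((max (-r x) 0 : ℝ) : ℂ)) μ := hbdd l _ hr.neg
    rw [hint, hint', ← sub_eq_zero, ← integral_sub (hbdd l r hr) hneg, ← h l]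
    apply integral_congr_ae
    refine Eventually.of_forall fun x => ?_
    simp only
    rw [← mul_sub, ← Complex.ofReal_sub]
    congr 2
    rcases le_total (r x) 0 with h1 | h1
    · rw [max_eq_right h1, max_eq_left (by linarith)]
      ring
    · rw [max_eq_left h1, max_eq_right (by linarith)]
      ring
  rw [hP, hP', withDensity_eq_iff hm hm' (by
    have := hf.measure_univ_lt_top
    rw [hP, withDensity_apply _ MeasurableSet.univ, Measure.restrict_univ] at this
    exact this.ne)] at hPP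
  filter_upwards [hPP] with x hx
  simp only [Pi.zero_apply]
  rcases le_total (r x) 0 with h1 | h1
  · rw [ENNReal.ofReal_eq_zero.2 h1] at hx
    have := ENNReal.ofReal_eq_zero.1 hx.symm
    linarith
  · rw [ENNReal.ofReal_eq_zero.2 (by linarith : -r x ≤ 0)] at hx
    have := ENNReal.ofReal_eq_zero.1 hx
    linarith

/-- A criterion for spectral measures. -/
theorem crit {d : ℕ} (μ : Measure (Fin d → ℝ)) [IsProbabilityMeasure μ] (Λ : Set (Fin d → ℝ))
    (ho : ∀ l ∈ Λ, ∀ l' ∈ Λ, l ≠ l' → ∫ x, chr (l - l') x ∂μ = 0)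
    (hQ : ∀ ξ : Fin d → ℝ, ∑' l : Λ, ‖∫ x, chr (ξ - (l : Fin d → ℝ)) x ∂μ‖ ^ 2 = 1) :
    ∃ e : Λ → Lp ℂ 2 μ, (∀ l : Λ, (e l : (Fin d → ℝ) → ℂ) =ᵐ[μ] chr l) ∧
      Orthonormal ℂ e ∧ (Submodule.span ℂ (Set.range e)).topologicalClosure = ⊤ := by
  have hmem : ∀ l : Fin d → ℝ, MemLp (chr l) 2 μ := fun l =>
    MemLp.of_bound (continuous_chr l).aestronglyMeasurable 1
      (Eventually.of_forall fun x => (norm_chr l x).le)
  let E : (Fin d → ℝ) → Lp ℂ 2 μ := fun l => (hmem l).toLp (chr l)
  have hE : ∀ l, (E l : (Fin d → ℝ) → ℂ) =ᵐ[μ] chr l := fun l => (hmem l).coeFn_toLp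
  have hin : ∀ l l' : Fin d → ℝ, (inner ℂ (E l) (E l') : ℂ) = ∫ x, chr (l' - l) x ∂μ := by
    intro l l'
    rw [inner_toLp l (E l) (hE l) (hmem l')]
    simp_rw [chr_sub_left]
  have hnorm : ∀ l, ‖E l‖ = 1 := by
    intro l
    have h1 := norm_sq_toLp (hmem l)
    simp_rw [norm_chr] at h1
    simp only [one_pow, integral_const, smul_eq_mul, mul_one] at h1
    rw [probReal_univ] at h1
    have h2 : ‖E l‖ ^ 2 = 1 := h1
    have h3 := norm_nonneg (E l)
    nlinarith
  have hon : Orthonormal ℂ (fun l : Λ => E l) := by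
    constructor
    · intro l
      exact hnorm _
    · intro l l' hne
      simp only
      rw [hin]
      exact ho _ l'.2 _ l.2 fun h => hne (Subtype.ext h.symm)
  refine ⟨fun l => E l, fun l => hE l, hon, ?_⟩
  -- all characters are in the closed span
  set V := Submodule.span ℂ (range fun l : Λ => E l) with hV
  have hall : ∀ ξ, E ξ ∈ V.topologicalClosure := by
    intro ξ
    have hsum : Summable fun l : Λ => ‖(∫ x, chr (ξ - (l : Fin d → ℝ)) x ∂μ : ℂ)‖ ^ 2 := by
      by_contra hc
      have := hQ ξ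
      rw [tsum_eq_zero_of_not_summable hc] at this
      exact zero_ne_one this
    have hs : HasSum (fun l : Λ => ‖(∫ x, chr (ξ - (l : Fin d → ℝ)) x ∂μ : ℂ)‖ ^ 2) 1 := by
      rw [← hQ ξ]
      exact hsum.hasSum
    rw [← SetLike.mem_coe, Submodule.topologicalClosure_coe, Metric.mem_closure_iff]
    intro ε hε
    have hs' : Tendsto (fun s : Finset Λ => ∑ l ∈ s, ‖(∫ x, chr (ξ - (l : Fin d → ℝ)) x ∂μ : ℂ)‖ ^ 2) atTop
        (𝓝 1) := hs
    have hev := hs'.eventually (lt_mem_nhds (show 1 - ε ^ 2 < 1 by have := sq_pos_of_pos hε; linarith))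
    obtain ⟨s, hs1⟩ := hev.exists
    refine ⟨∑ l ∈ s, (inner ℂ (E l) (E ξ) : ℂ) • E l, ?_, ?_⟩
    · refine Submodule.sum_mem _ fun l _ => Submodule.smul_mem _ _ (Submodule.subset_span ⟨l, rfl⟩)
    · have key : ‖E ξ - ∑ l ∈ s, (inner ℂ (E l) (E ξ) : ℂ) • E l‖ ^ 2 =
          1 - ∑ l ∈ s, ‖(∫ x, chr (ξ - (l : Fin d → ℝ)) x ∂μ : ℂ)‖ ^ 2 := by
        have e1 : (∑ l ∈ s, (inner ℂ (E l) (E ξ) : ℂ) • E l) = ∑ l ∈ s,
            (fun l : Λ => (inner ℂ (E l) (E ξ) : ℂ)) l • (fun l : Λ => E l) l := rfl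
        have e2 : ‖∑ l ∈ s, (inner ℂ (E l) (E ξ) : ℂ) • E l‖ ^ 2 =
            ∑ l ∈ s, ‖(inner ℂ (E l) (E ξ) : ℂ)‖ ^ 2 := by
          have h2 := hon.inner_sum (fun l : Λ => (inner ℂ (E l) (E ξ) : ℂ))
            (fun l : Λ => (inner ℂ (E l) (E ξ) : ℂ)) s
          rw [inner_self_eq_norm_sq_to_K] at h2
          have h3 : ((‖∑ l ∈ s, (inner ℂ (E l) (E ξ) : ℂ) • E l‖ ^ 2 : ℝ) : ℂ) =
              ((∑ l ∈ s, ‖(inner ℂ (E l) (E ξ) : ℂ)‖ ^ 2 : ℝ) : ℂ) := by
            push_cast
            refine Eq.trans ?_ (h2.trans ?_)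
            · rfl
            · refine Finset.sum_congr rfl fun l _ => ?_
              rw [mul_comm, Complex.mul_conj, Complex.normSq_eq_norm_sq]
              push_cast
              rfl
          exact Complex.ofReal_injective h3
        have e3 : RCLike.re (inner ℂ (E ξ) (∑ l ∈ s, (inner ℂ (E l) (E ξ) : ℂ) • E l) : ℂ) =
            ∑ l ∈ s, ‖(inner ℂ (E l) (E ξ) : ℂ)‖ ^ 2 := by
          rw [inner_sum, map_sum]
          refine Finset.sum_congr rfl fun l _ => ?_
          rw [inner_smul_right, ← inner_conj_symm (E ξ) (E l), Complex.mul_conj,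
            Complex.normSq_eq_norm_sq]
          exact Complex.ofReal_re _
        rw [norm_sub_sq (𝕜 := ℂ), e3, e2, hnorm]
        simp_rw [hin]
        ring
      rw [dist_eq_norm]
      have h4 : ‖E ξ - ∑ l ∈ s, (inner ℂ (E l) (E ξ) : ℂ) • E l‖ ^ 2 < ε ^ 2 := by
        rw [key]
        linarith
      exact lt_of_pow_lt_pow_left₀ 2 hε.le h4
  rw [Submodule.topologicalClosure_eq_top_iff, Submodule.eq_bot_iff]
  intro f hf
  rw [Submodule.mem_orthogonal] at hf
  have hf0 : ∀ ξ, (inner ℂ (E ξ) f : ℂ) = 0 := by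
    intro ξ
    have h1 : f ∈ (V.topologicalClosure)ᗮ := by
      rw [Submodule.orthogonal_closure]
      exact (Submodule.mem_orthogonal _ _).2 hf
    exact (Submodule.mem_orthogonal _ _).1 h1 _ (hall ξ)
  have hfint : Integrable (fun x => f x) μ := (Lp.memLp f).integrable (by norm_num)
  have hint0 : ∀ l : Fin d → ℝ, ∫ x, chr l x * f x ∂μ = 0 := by
    intro l
    have h1 := hf0 (-l)
    rw [L2.inner_def] at h1
    rw [← h1]
    apply integral_congr_ae
    filter_upwards [hE (-l)] with x hx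
    rw [hx, RCLike.inner_apply, chr_neg, Complex.conj_conj, mul_comm]
  have hint1 : ∀ l : Fin d → ℝ, ∫ x, chr l x * (starRingEnd ℂ) (f x) ∂μ = 0 := by
    intro l
    have h1 := hint0 (-l)
    have h2 : (starRingEnd ℂ) (∫ x, chr (-l) x * f x ∂μ) = 0 := by rw [h1, map_zero]
    rw [← integral_conj] at h2
    rw [← h2]
    congr 1
    funext x
    rw [map_mul, chr_neg, Complex.conj_conj]
  have hb : ∀ (l : Fin d → ℝ) (u : (Fin d → ℝ) → ℂ), Integrable u μ →
      Integrable (fun x => chr l x * u x) μ := by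
    intro l u hu
    exact hu.bdd_mul (c := 1) ((continuous_chr l).aestronglyMeasurable)
      (Eventually.of_forall fun x => (norm_chr l x).le)
  have hconj : Integrable (fun x => (starRingEnd ℂ) (f x)) μ := by
    have := (Complex.conjCLE : ℂ ≃L[ℝ] ℂ).toContinuousLinearMap.integrable_comp hfint
    exact this
  have hre : (fun x => (f x).re) =ᵐ[μ] 0 := by
    refine real_zero (r := fun x => (f x).re) hfint.re fun l => ?_
    have h1 : ∀ x, chr l x * (((f x).re : ℝ) : ℂ) = (1 / 2) * (chr l x * f x) +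
        (1 / 2) * (chr l x * (starRingEnd ℂ) (f x)) := by
      intro x
      have := Complex.re_eq_add_conj (f x)
      have h2 : (((f x).re : ℝ) : ℂ) = (f x + (starRingEnd ℂ) (f x)) / 2 := this
      rw [h2]
      ring
    rw [integral_congr_ae (Eventually.of_forall h1)]
    rw [integral_add ((hb l _ hfint).const_mul _) ((hb l _ hconj).const_mul _),
      integral_const_mul, integral_const_mul, hint0, hint1]
    simp
  have him : (fun x => (f x).im) =ᵐ[μ] 0 := by
    refine real_zero (r := fun x => (f x).im) hfint.im fun l => ?_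
    have h1 : ∀ x, chr l x * (((f x).im : ℝ) : ℂ) = (1 / (2 * Complex.I)) * (chr l x * f x) -
        (1 / (2 * Complex.I)) * (chr l x * (starRingEnd ℂ) (f x)) := by
      intro x
      have := Complex.im_eq_sub_conj (f x)
      have h2 : (((f x).im : ℝ) : ℂ) = (f x - (starRingEnd ℂ) (f x)) / (2 * Complex.I) := this
      rw [h2]
      ring
    rw [integral_congr_ae (Eventually.of_forall h1)]
    rw [integral_sub ((hb l _ hfint).const_mul _) ((hb l _ hconj).const_mul _),
      integral_const_mul, integral_const_mul, hint0, hint1]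
    simp
  rw [Lp.eq_zero_iff_ae_eq_zero]
  filter_upwards [hre, him] with x h1 h2
  exact Complex.ext h1 h2

end Pool.Agent.W5h51.SP
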