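import Pool.Agent.W5h51.SP.Meas

set_option autoImplicit false

open Filter Topology Set MeasureTheory
open scoped Pointwise

namespace Pool.Agent.W5h51.SP

open Pool.Agent.W5h51.SO

/-! ### The Bernoulli measure -/

section

variable {X : Type*} [MeasurableSpace X]

/-- add a first letter -/
def cons (b : X) (ω : ℕ → X) : ℕ → X := fun n => Nat.casesOn n b ω

theorem measurable_cons : Measurable fun p : X × (ℕ → X) => cons p.1 p.2 := by
  rw [measurable_pi_iff]
  intro n
  cases n with
  | zero => exact measurable_fst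
  | succ n => exact (measurable_pi_apply n).comp measurable_snd

theorem map_cons (κ : Measure X) [IsProbabilityMeasure κ] :
    (κ.prod (Measure.infinitePi fun _ : ℕ => κ)).map (fun p => cons p.1 p.2) =
      Measure.infinitePi fun _ : ℕ => κ := by
  apply Measure.eq_infinitePi
  intro s t ht
  rw [Measure.map_apply measurable_cons (MeasurableSet.pi s.countable_toSet fun i _ => ht i)]
  classical
  let s' : Finset ℕ := (s.filter fun n => n ≠ 0).image fun n => n - 1
  have hs' : ∀ n, n ∈ s' ↔ n + 1 ∈ s := by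
    intro n
    simp only [s', Finset.mem_image, Finset.mem_filter]
    constructor
    · rintro ⟨m, ⟨hm, hm0⟩, rfl⟩
      have : m - 1 + 1 = m := by omega
      rwa [this]
    · intro h
      exact ⟨n + 1, ⟨h, by omega⟩, by omega⟩
  have hset : (fun p : X × (ℕ → X) => cons p.1 p.2) ⁻¹' (s : Set ℕ).pi t =
      (if 0 ∈ s then t 0 else univ) ×ˢ (s' : Set ℕ).pi (fun n => t (n + 1)) := by
    ext ⟨b, ω⟩
    simp only [mem_preimage, Set.mem_pi, mem_prod, Finset.mem_coe]
    constructor
    · intro h
      refine ⟨?_, ?_⟩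
      · split_ifs with h0
        · exact h 0 h0
        · trivial
      · intro n hn
        exact h (n + 1) ((hs' n).1 hn)
    · rintro ⟨h1, h2⟩ n hn
      cases n with
      | zero =>
        rw [if_pos hn] at h1
        exact h1
      | succ n => exact h2 n ((hs' n).2 hn)
  rw [hset, Measure.prod_prod, Measure.infinitePi_pi _ (fun i _ => ht (i + 1))]
  have hprod : ∏ i ∈ s', κ (t (i + 1)) = ∏ i ∈ s.filter fun n => n ≠ 0, κ (t i) := by
    refine Finset.prod_bij (fun n _ => n + 1) ?_ ?_ ?_ ?_
    · intro n hn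
      rw [Finset.mem_filter]
      exact ⟨(hs' n).1 hn, by omega⟩
    · intro a _ b _ h
      omega
    · intro b hb
      rw [Finset.mem_filter] at hb
      refine ⟨b - 1, (hs' _).2 ?_, ?_⟩
      · have : b - 1 + 1 = b := by omega
        rw [this]
        exact hb.1
      · have : b ≠ 0 := hb.2
        omega
    · intro n _
      rfl
  rw [hprod]
  by_cases h0 : 0 ∈ s
  · rw [if_pos h0]
    have h1 : s = insert 0 (s.filter fun n => n ≠ 0) := by
      ext n
      simp only [Finset.mem_insert, Finset.mem_filter]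
      constructor
      · intro hn
        by_cases hn0 : n = 0
        · exact Or.inl hn0
        · exact Or.inr ⟨hn, hn0⟩
      · rintro (rfl | ⟨h, -⟩)
        · exact h0
        · exact h
    conv_rhs => rw [h1]
    rw [Finset.prod_insert (by simp)]
  · rw [if_neg h0, measure_univ, one_mul]
    have h1 : s = s.filter fun n => n ≠ 0 := by
      ext n
      simp only [Finset.mem_filter]
      constructor
      · intro hn
        refine ⟨hn, ?_⟩
        rintro rfl
        exact h0 hn
      · exact fun h => h.1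
    conv_rhs => rw [h1]

end

/-! ### The coding map -/

variable {d : ℕ}

/-- the digits as a type -/
abbrev Lt (d : ℕ) : Type := ↥(Dig d)

theorem dig_bound {a : ℤ} (h : a ∈ dig) : 0 ≤ (a : ℝ) ∧ (a : ℝ) ≤ 9 := by
  have h1 : 0 ≤ a ∧ a ≤ 9 := by
    revert h
    revert a
    decide
  constructor
  · exact_mod_cast h1.1
  · exact_mod_cast h1.2

theorem lt_bound (b : Lt d) (i : Fin d) : 0 ≤ ((b : Fin d → ℤ) i : ℝ) ∧ ((b : Fin d → ℤ) i : ℝ) ≤ 9 := by
  have h : (b : Fin d → ℤ) ∈ Fintype.piFinset fun _ => dig := b.2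
  rw [Fintype.mem_piFinset] at h
  exact dig_bound (h i)

/-- the coding map -/
noncomputable def code (ω : ℕ → Lt d) : Fin d → ℝ := fun i =>
  ∑' n : ℕ, ((ω n : Fin d → ℤ) i : ℝ) / 12 ^ (n + 1)

theorem geo_summable : Summable fun n : ℕ => (9 : ℝ) / 12 ^ (n + 1) := by
  have h1 : Summable fun n : ℕ => (9 / 12 : ℝ) * (1 / 12) ^ n :=
    (summable_geometric_of_lt_one (by norm_num) (by norm_num)).mul_left _
  refine h1.congr fun n => ?_
  rw [pow_succ, one_div, inv_pow]
  field_simp

theorem geo_tsum : ∑' n : ℕ, (9 : ℝ) / 12 ^ (n + 1) = 9 / 11 := by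
  have h1 : ∀ n : ℕ, (9 : ℝ) / 12 ^ (n + 1) = (9 / 12 : ℝ) * (1 / 12) ^ n := by
    intro n
    rw [pow_succ, one_div, inv_pow]
    field_simp
  simp_rw [h1]
  rw [tsum_mul_left, tsum_geometric_of_lt_one (by norm_num) (by norm_num)]
  norm_num

theorem term_bound (b : Lt d) (i : Fin d) (n : ℕ) :
    0 ≤ ((b : Fin d → ℤ) i : ℝ) / 12 ^ (n + 1) ∧
      ((b : Fin d → ℤ) i : ℝ) / 12 ^ (n + 1) ≤ 9 / 12 ^ (n + 1) := by
  have h := lt_bound b i
  constructor
  · exact div_nonneg h.1 (by positivity)
  · exact div_le_div_of_nonneg_right h.2 (by positivity)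

theorem code_summable (ω : ℕ → Lt d) (i : Fin d) :
    Summable fun n : ℕ => ((ω n : Fin d → ℤ) i : ℝ) / 12 ^ (n + 1) :=
  Summable.of_nonneg_of_le (fun n => (term_bound _ i n).1) (fun n => (term_bound _ i n).2)
    geo_summable

theorem code_bound (ω : ℕ → Lt d) (i : Fin d) : 0 ≤ code ω i ∧ code ω i ≤ 9 / 11 := by
  constructor
  · exact tsum_nonneg fun n => (term_bound _ i n).1
  · rw [← geo_tsum]
    exact (code_summable ω i).tsum_le_tsum (fun n => (term_bound _ i n).2) geo_summable

theorem code_cons (b : Lt d) (ω : ℕ → Lt d) : code (cons b ω) = tt (b : Fin d → ℤ) (code ω) := by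
  funext i
  unfold code tt
  rw [(code_summable (cons b ω) i).tsum_eq_zero_add]
  have h1 : ∀ n : ℕ, (((cons b ω (n + 1) : Lt d) : Fin d → ℤ) i : ℝ) / 12 ^ (n + 1 + 1) =
      ((ω n : Fin d → ℤ) i : ℝ) / 12 ^ (n + 1) / 12 := by
    intro n
    rw [div_div, ← pow_succ]
    rfl
  simp_rw [h1]
  rw [tsum_div_const]
  have h2 : ((cons b ω 0 : Lt d) : Fin d → ℤ) = b := rfl
  rw [h2]
  ring

theorem continuous_code : Continuous (code : (ℕ → Lt d) → Fin d → ℝ) := by
  refine continuous_pi fun i => ?_
  unfold code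
  refine continuous_tsum (fun n => ?_) geo_summable (fun n ω => ?_)
  · have h1 : Continuous fun b : Lt d => ((b : Fin d → ℤ) i : ℝ) :=
      continuous_of_discreteTopology
    exact (h1.comp (continuous_apply n)).div_const _
  · rw [Real.norm_eq_abs, abs_of_nonneg (term_bound _ i n).1]
    exact (term_bound _ i n).2

/-- the attractor -/
def TT (d : ℕ) : Set (Fin d → ℝ) := range (code : (ℕ → Lt d) → Fin d → ℝ)

instance : Nonempty (Lt d) := ⟨⟨fun _ => 0, by
  rw [Dig, Fintype.mem_piFinset]
  intro i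
  decide⟩⟩

theorem TT_compact : IsCompact (TT d) := isCompact_range continuous_code

theorem TT_nonempty : (TT d).Nonempty := range_nonempty _

theorem TT_eq : TT d = ⋃ b ∈ Dig d, tt b '' TT d := by
  ext x
  simp only [mem_iUnion, exists_prop]
  constructor
  · rintro ⟨ω, rfl⟩
    refine ⟨ω 0, (ω 0).2, code (fun n => ω (n + 1)), ⟨_, rfl⟩, ?_⟩
    rw [← code_cons]
    congr 1
    funext n
    cases n with
    | zero => rfl
    | succ n => rfl
  · rintro ⟨b, hb, y, ⟨ω, rfl⟩, rfl⟩
    exact ⟨cons ⟨b, hb⟩ ω, code_cons _ _⟩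

theorem TT_disjoint {b b' : Fin d → ℤ} (hne : b ≠ b') : Disjoint (tt b '' TT d) (tt b' '' TT d) := by
  rw [Set.disjoint_left]
  rintro x ⟨y, ⟨ω, rfl⟩, rfl⟩ ⟨y', ⟨ω', rfl⟩, h⟩
  apply hne
  funext i
  have h1 := congrFun h i
  unfold tt at h1
  have h2 := code_bound ω i
  have h3 := code_bound ω' i
  have h4 : code ω' i + (b' i : ℝ) = code ω i + (b i : ℝ) := by linarith
  have h5 : ((b i - b' i : ℤ) : ℝ) < 1 := by
    push_cast
    linarith
  have h6 : ((-1 : ℤ) : ℝ) < ((b i - b' i : ℤ) : ℝ) := by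
    push_cast
    linarith
  have h7 : b i - b' i < 1 := by exact_mod_cast h5
  have h8 : -1 < b i - b' i := by exact_mod_cast h6
  omega

/-- the uniform measure on the digits -/
noncomputable def kap (d : ℕ) : Measure (Lt d) := ((Dig d).card : ENNReal)⁻¹ • Measure.count

instance : IsProbabilityMeasure (kap d) := by
  constructor
  rw [kap, Measure.smul_apply, Measure.count_univ, smul_eq_mul]
  have h1 : ENat.card (Lt d) = ((Dig d).card : ℕ∞) := by
    rw [ENat.card_eq_coe_fintype_card, Fintype.card_coe]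
  rw [h1]
  have h2 : ((Dig d).card : ENNReal) ≠ 0 := by
    rw [card_Dig]
    positivity
  exact ENNReal.inv_mul_cancel h2 (ENNReal.natCast_ne_top _)

/-- the self-affine measure -/
noncomputable def mu (d : ℕ) : Measure (Fin d → ℝ) :=
  (Measure.infinitePi fun _ : ℕ => kap d).map code

instance : IsProbabilityMeasure (mu d) :=
  Measure.isProbabilityMeasure_map continuous_code.measurable.aemeasurable

theorem mu_self : mu d = ∑ b ∈ Dig d, ((Dig d).card : ENNReal)⁻¹ • (mu d).map (tt b) := by
  have hcm : Measurable (code : (ℕ → Lt d) → Fin d → ℝ) := continuous_code.measurable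
  ext s hs
  rw [Measure.finsetSum_apply]
  have h1 : mu d s = (kap d).prod (Measure.infinitePi fun _ : ℕ => kap d)
      ((fun p : Lt d × (ℕ → Lt d) => code (cons p.1 p.2)) ⁻¹' s) := by
    rw [mu, Measure.map_apply hcm hs]
    conv_lhs => rw [← map_cons (kap d)]
    rw [Measure.map_apply measurable_cons (hcm hs)]
    rfl
  have hm : MeasurableSet ((fun p : Lt d × (ℕ → Lt d) => code (cons p.1 p.2)) ⁻¹' s) :=
    (hcm.comp measurable_cons) hs
  rw [h1, Measure.prod_apply hm, kap, lintegral_smul_measure,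
    lintegral_count, tsum_fintype, smul_eq_mul, Finset.mul_sum]
  rw [← Finset.sum_coe_sort (Dig d)]
  refine Finset.sum_congr rfl fun b _ => ?_
  rw [Measure.smul_apply, smul_eq_mul, Measure.map_apply (continuous_tt _).measurable hs, mu,
    Measure.map_apply hcm ((continuous_tt _).measurable hs)]
  congr 1
  congr 1
  ext ω
  simp only [mem_preimage]
  rw [code_cons]

theorem TT_volume (hd : 1 ≤ d) : volume (TT d) = 0 := by
  have h1 : ∀ b : Fin d → ℤ, volume (tt b '' TT d) = ENNReal.ofReal ((1 / 12) ^ d) * volume (TT d) := by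
    intro b
    have e1 : tt b '' TT d = (1 / 12 : ℝ) • ((fun x : Fin d → ℝ => x + fun i => (b i : ℝ)) '' TT d) := by
      rw [← image_smul, image_image]
      congr 1
      funext x
      funext i
      simp only [tt, Pi.smul_apply, Pi.add_apply, smul_eq_mul]
      ring
    rw [e1, Measure.addHaar_smul, Module.finrank_fin_fun]
    rw [image_add_right, measure_preimage_add_right]
    congr 2
    exact abs_of_nonneg (by positivity)
  have h2 : volume (TT d) ≤ (4 ^ d : ENNReal) * (ENNReal.ofReal ((1 / 12) ^ d) * volume (TT d)) := by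
    conv_lhs => rw [TT_eq]
    refine (measure_biUnion_finset_le _ _).trans ?_
    simp_rw [h1]
    rw [Finset.sum_const, card_Dig, nsmul_eq_mul]
    push_cast
    exact le_refl _
  have h3 : volume (TT d) ≠ ⊤ := TT_compact.measure_lt_top.ne
  have h4 : (4 ^ d : ENNReal) * ENNReal.ofReal ((1 / 12) ^ d) = ENNReal.ofReal ((1 / 3) ^ d) := by
    have : (4 ^ d : ENNReal) = ENNReal.ofReal (4 ^ d) := by
      rw [ENNReal.ofReal_pow (by norm_num)]
      norm_num
    rw [this, ← ENNReal.ofReal_mul (by positivity), ← mul_pow]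
    norm_num
  rw [← mul_assoc, h4] at h2
  by_contra hne
  have h5 : ENNReal.ofReal ((1 / 3) ^ d) < 1 := by
    rw [← ENNReal.ofReal_one, ENNReal.ofReal_lt_ofReal_iff one_pos]
    exact pow_lt_one₀ (by norm_num) (by norm_num) (by omega)
  have h6 : ENNReal.ofReal ((1 / 3) ^ d) * volume (TT d) < 1 * volume (TT d) :=
    (ENNReal.mul_lt_mul_iff_left hne h3).2 h5
  rw [one_mul] at h6
  exact absurd h2 (not_le.2 h6)

end Pool.Agent.W5h51.SP
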