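import Pool.Agent.W5h51.SP.Meas

set_option autoImplicit false

open Filter Topology Set

namespace Pool.Agent.W5h51.SP

/-- the one-dimensional iterated digits -/
def D1 : ℕ → Finset ℤ
  | 0 => {0}
  | n + 1 => (dig ×ˢ D1 n).image fun p => p.1 + 12 * p.2

theorem D1_inj {a a' c c' : ℤ} (ha : a ∈ dig) (ha' : a' ∈ dig) (h : a + 12 * c = a' + 12 * c') :
    a = a' ∧ c = c' := by
  have h1 : ∀ a ∈ dig, 0 ≤ a ∧ a ≤ 9 := by decide
  have h2 := h1 a ha
  have h3 := h1 a' ha'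
  omega

theorem sum_D1_succ {M : Type*} [AddCommMonoid M] (n : ℕ) (f : ℤ → M) :
    ∑ c ∈ D1 (n + 1), f c = ∑ a ∈ dig, ∑ c ∈ D1 n, f (a + 12 * c) := by
  rw [D1, Finset.sum_image, Finset.sum_product]
  rintro ⟨a, c⟩ h ⟨a', c'⟩ h' heq
  have h1 := (Finset.mem_product.1 (Finset.mem_coe.1 h)).1
  have h2 := (Finset.mem_product.1 (Finset.mem_coe.1 h')).1
  have h3 := D1_inj h1 h2 heq
  rw [Prod.mk.injEq]
  exact h3

theorem card_D1 (n : ℕ) : (D1 n).card = 4 ^ n := by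
  induction n with
  | zero => simp [D1]
  | succ n ih =>
    rw [Finset.card_eq_sum_ones, sum_D1_succ]
    simp only [Finset.sum_const, smul_eq_mul, mul_one, ih]
    have : dig.card = 4 := by decide
    rw [this, pow_succ, mul_comm]

/-- the mask of the iterated digits -/
noncomputable def M (n : ℕ) (t : ℝ) : ℂ := ∑ c ∈ D1 n, ee (t * c)

theorem M_succ (n : ℕ) (t : ℝ) : M (n + 1) t = (1 + ee t) * (1 + ee (8 * t)) * M n (12 * t) := by
  rw [M, sum_D1_succ, ← sum_dig, Finset.sum_mul, M]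
  refine Finset.sum_congr rfl fun a _ => ?_
  rw [Finset.mul_sum]
  refine Finset.sum_congr rfl fun c _ => ?_
  rw [← ee_add]
  congr 1
  push_cast
  ring

theorem one_add_ee_zero {s : ℝ} (h : 1 + ee s = 0) : ∃ m : ℤ, 2 * s = 2 * m + 1 := by
  have h1 := norm_one_add_ee s
  rw [h, norm_zero] at h1
  have h2 : g s = 0 := by
    have : (0 : ℝ) ^ 2 = 0 := by norm_num
    rw [this] at h1
    linarith
  rw [g] at h2
  have h3 : Real.cos (Real.pi * s) = 0 := pow_eq_zero_iff (two_ne_zero) |>.1 h2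
  rw [Real.cos_eq_zero_iff] at h3
  obtain ⟨m, hm⟩ := h3
  refine ⟨m, ?_⟩
  have hpi := Real.pi_pos
  have h4 : Real.pi * (2 * s) = Real.pi * (2 * m + 1) := by linarith
  exact mul_left_cancel₀ hpi.ne' h4

theorem M_zero {n : ℕ} {t : ℝ} (h : M n t = 0) :
    ∃ k < n, (∃ m : ℤ, 2 * (12 ^ k * t) = 2 * m + 1) ∨ ∃ m : ℤ, 2 * (8 * (12 ^ k * t)) = 2 * m + 1 := by
  induction n generalizing t with
  | zero =>
    simp [M, D1, ee_zero] at h
  | succ n ih =>
    rw [M_succ, mul_eq_zero, mul_eq_zero] at h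
    rcases h with (h | h) | h
    · refine ⟨0, by omega, Or.inl ?_⟩
      rw [pow_zero, one_mul]
      exact one_add_ee_zero h
    · refine ⟨0, by omega, Or.inr ?_⟩
      rw [pow_zero, one_mul]
      exact one_add_ee_zero h
    · obtain ⟨k, hk, h1⟩ := ih h
      refine ⟨k + 1, by omega, ?_⟩
      have e : (12 : ℝ) ^ (k + 1) * t = 12 ^ k * (12 * t) := by ring
      rw [e]
      exact h1

/-- the zeros of the mask among the multiples of `12 ^ (-n)` -/
theorem M_zero_int {n : ℕ} {x : ℤ} (h : M n ((x : ℝ) / 12 ^ n) = 0) :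
    ∃ j : ℕ, j ≤ n ∧ ((∃ m : ℤ, 2 * x = 12 ^ j * (2 * m + 1) ∧ 1 ≤ j) ∨
      ∃ m : ℤ, 16 * x = 12 ^ j * (2 * m + 1)) := by
  obtain ⟨k, hk, h1⟩ := M_zero h
  have hp : (12 : ℝ) ^ n = 12 ^ k * 12 ^ (n - k) := by
    rw [← pow_add]
    congr 1
    omega
  have hk0 : (12 : ℝ) ^ k ≠ 0 := by positivity
  have hk1 : (12 : ℝ) ^ (n - k) ≠ 0 := by positivity
  have hx : (12 : ℝ) ^ k * ((x : ℝ) / 12 ^ n) = x / 12 ^ (n - k) := by
    rw [hp]
    field_simp
  rw [hx] at h1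
  refine ⟨n - k, by omega, ?_⟩
  rcases h1 with ⟨m, hm⟩ | ⟨m, hm⟩
  · refine Or.inl ⟨m, ?_, by omega⟩
    have h2 : (2 * x : ℝ) = 12 ^ (n - k) * (2 * m + 1) := by
      rw [← hm]
      field_simp
    exact_mod_cast h2
  · refine Or.inr ⟨m, ?_⟩
    have h2 : (16 * x : ℝ) = 12 ^ (n - k) * (2 * m + 1) := by
      rw [← hm]
      field_simp
      ring
    exact_mod_cast h2

/-- the class of an integer -/
def cls (n : ℕ) (m : ℤ) : ℤ × ℤ := (m % 4 ^ n, (m / 4 ^ n % 4) / 2)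

theorem odd_three (j : ℕ) (m : ℤ) : (3 ^ j * (2 * m + 1)) % 2 = 1 := by
  have h1 : Odd ((3 : ℤ) ^ j * (2 * m + 1)) := by
    apply Odd.mul
    · exact Odd.pow (by decide)
    · exact ⟨m, rfl⟩
  exact Int.odd_iff.1 h1

theorem cls_ne {n : ℕ} {l l' : ℤ} (h : M (n + 1) (((l - l' : ℤ) : ℝ) / 12 ^ (n + 1)) = 0) :
    cls n l ≠ cls n l' := by
  intro hc
  rw [cls, cls, Prod.mk.injEq] at hc
  obtain ⟨h1, h2⟩ := hc
  set a := l / 4 ^ n with ha
  set b := l' / 4 ^ n with hb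
  have hx : l - l' = 4 ^ n * (a - b) := by
    have e1 := Int.emod_add_mul_ediv l (4 ^ n)
    have e2 := Int.emod_add_mul_ediv l' (4 ^ n)
    rw [← ha] at e1
    rw [← hb] at e2
    linarith
  have hab : (a - b) % 4 ≠ 2 := by omega
  obtain ⟨j, hj, h3⟩ := M_zero_int h
  have h12 : ∀ j : ℕ, (12 : ℤ) ^ j = 4 ^ j * 3 ^ j := fun j => by
    rw [← mul_pow]
    norm_num
  rcases h3 with ⟨m, hm, hj1⟩ | ⟨m, hm⟩
  · rw [hx, h12] at hm
    rcases Nat.lt_or_ge n j with hnj | hnj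
    · have hj' : j = n + 1 := by omega
      subst hj'
      have h4 : (4 : ℤ) ^ n * (2 * (a - b)) = 4 ^ n * (4 * (3 ^ (n + 1) * (2 * m + 1))) := by
        rw [pow_succ 4 n] at hm
        linarith
      have h5 := mul_left_cancel₀ (by positivity : (4 : ℤ) ^ n ≠ 0) h4
      have h6 := odd_three (n + 1) m
      omega
    · obtain ⟨r, rfl⟩ := Nat.exists_eq_add_of_le hnj
      have h4 : (4 : ℤ) ^ j * (2 * (4 ^ r * (a - b))) = 4 ^ j * (3 ^ j * (2 * m + 1)) := by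
        rw [pow_add] at hm
        linarith
      have h5 := mul_left_cancel₀ (by positivity : (4 : ℤ) ^ j ≠ 0) h4
      have h6 := odd_three j m
      omega
  · rw [hx, h12] at hm
    obtain ⟨r, hr⟩ := Nat.exists_eq_add_of_le hj
    have h4 : (4 : ℤ) ^ j * (2 * (2 * (4 ^ r * (a - b)))) = 4 ^ j * (3 ^ j * (2 * m + 1)) := by
      have e1 : (16 : ℤ) * (4 ^ n * (a - b)) = 4 * (4 ^ (n + 1) * (a - b)) := by ring
      rw [e1, hr, pow_add] at hm
      linarith
    have h5 := mul_left_cancel₀ (by positivity : (4 : ℤ) ^ j ≠ 0) h4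
    have h6 := odd_three j m
    omega

/-- Too many frequencies can not be pairwise orthogonal. -/
theorem exists_bad {d : ℕ} (hd : 1 ≤ d) (n : ℕ) (L : Finset (Fin d → ℤ))
    (hL : L.card = (4 ^ (n + 1)) ^ d) : ∃ l ∈ L, ∃ l' ∈ L, l ≠ l' ∧
      ∀ i, M (n + 1) (((l i - l' i : ℤ) : ℝ) / 12 ^ (n + 1)) ≠ 0 := by
  classical
  let S : Finset (Fin d → ℤ × ℤ) := Fintype.piFinset fun _ => (Finset.Ico 0 (4 ^ n)) ×ˢ (Finset.Ico 0 2)
  have hS : S.card = (4 ^ n * 2) ^ d := by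
    rw [Fintype.card_piFinset, Finset.prod_const, Finset.card_univ, Fintype.card_fin,
      Finset.card_product, Int.card_Ico, Int.card_Ico]
    congr 2
  have hlt : S.card < L.card := by
    rw [hS, hL]
    apply Nat.pow_lt_pow_left _ (by omega)
    rw [pow_succ]
    have : 0 < 4 ^ n := by positivity
    omega
  have hmaps : ∀ l ∈ L, (fun i => cls n (l i)) ∈ S := by
    intro l _
    rw [Fintype.mem_piFinset]
    intro i
    rw [cls, Finset.mem_product, Finset.mem_Ico, Finset.mem_Ico]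
    have hp : (0 : ℤ) < 4 ^ n := by positivity
    have h1 := Int.emod_nonneg (l i) hp.ne'
    have h2 := Int.emod_lt_of_pos (l i) hp
    refine ⟨⟨h1, h2⟩, ?_⟩
    simp only
    omega
  obtain ⟨l, hl, l', hl', hne, heq⟩ := Finset.exists_ne_map_eq_of_card_lt_of_maps_to hlt hmaps
  exact ⟨l, hl, l', hl', hne, fun i h => cls_ne h (congrFun heq i)⟩

end Pool.Agent.W5h51.SP
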