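import Pool.Agent.W5h51.SP.Exist
import Pool.Agent.W5h51.SP.Had

set_option autoImplicit false

open Filter Topology Set MeasureTheory
open scoped Pointwise Matrix

namespace Pool.Agent.W5h51.SP

open Pool.Agent.W5h51.SO

variable {d : ℕ}

theorem vol_zero (hd : 1 ≤ d) {T : Set (Fin d → ℝ)} (hTc : IsCompact T)
    (hT : T = ⋃ b ∈ Dig d, tt b '' T) : volume T = 0 := by
  have h1 : ∀ b : Fin d → ℤ, volume (tt b '' T) = ENNReal.ofReal ((1 / 12) ^ d) * volume T := by
    intro b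
    have e1 : tt b '' T = (1 / 12 : ℝ) • ((fun x : Fin d → ℝ => x + fun i => (b i : ℝ)) '' T) := by
      rw [← image_smul, image_image]
      congr 1
      funext x
      funext i
      simp only [tt, Pi.smul_apply, Pi.add_apply, smul_eq_mul]
      ring
    rw [e1, Measure.addHaar_smul, Module.finrank_fin_fun]
    rw [image_add_right, measure_preimage_add_right]
    congr 2
    exact abs_of_nonneg (by positivity)
  have h2 : volume T ≤ (4 ^ d : ENNReal) * (ENNReal.ofReal ((1 / 12) ^ d) * volume T) := by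
    conv_lhs => rw [hT]
    refine (measure_biUnion_finset_le _ _).trans ?_
    simp_rw [h1]
    rw [Finset.sum_const, card_Dig, nsmul_eq_mul]
    push_cast
    exact le_refl _
  have h3 : volume T ≠ ⊤ := hTc.measure_lt_top.ne
  have h4 : (4 ^ d : ENNReal) * ENNReal.ofReal ((1 / 12) ^ d) = ENNReal.ofReal ((1 / 3) ^ d) := by
    have : (4 ^ d : ENNReal) = ENNReal.ofReal (4 ^ d) := by
      rw [ENNReal.ofReal_pow (by norm_num)]
      norm_num
    rw [this, ← ENNReal.ofReal_mul (by positivity), ← mul_pow]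
    norm_num
  rw [← mul_assoc, h4] at h2
  by_contra hne
  have h5 : ENNReal.ofReal ((1 / 3) ^ d) < 1 := by
    rw [← ENNReal.ofReal_one, ENNReal.ofReal_lt_ofReal_iff one_pos]
    exact pow_lt_one₀ (by norm_num) (by norm_num) (by omega)
  have h6 : ENNReal.ofReal ((1 / 3) ^ d) * volume T < 1 * volume T :=
    (ENNReal.mul_lt_mul_iff_left hne h3).2 h5
  rw [one_mul] at h6
  exact absurd h2 (not_le.2 h6)

theorem coord_bound {T : Set (Fin d → ℝ)} (hTc : IsCompact T)
    (hT : T = ⋃ b ∈ Dig d, tt b '' T) {x : Fin d → ℝ} (hx : x ∈ T) (i : Fin d) :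
    0 ≤ x i ∧ x i ≤ 9 / 11 := by
  have hci : ContinuousOn (fun x : Fin d → ℝ => x i) T := (continuous_apply i).continuousOn
  have hpre : ∀ x ∈ T, ∃ y ∈ T, ∃ b ∈ Dig d, x = tt b y := by
    intro x hx
    rw [hT] at hx
    simp only [mem_iUnion, exists_prop] at hx
    obtain ⟨b, hb, y, hy, rfl⟩ := hx
    exact ⟨y, hy, b, hb, rfl⟩
  constructor
  · obtain ⟨z, hz, hmin⟩ := hTc.exists_isMinOn ⟨x, hx⟩ hci
    obtain ⟨y, hy, b, hb, hzb⟩ := hpre z hz
    have h1 : z i ≤ y i := hmin hy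
    have h2 : z i ≤ x i := hmin hx
    have h3 := lt_bound ⟨b, hb⟩ i
    have h4 : z i = (y i + b i) / 12 := by rw [hzb]; rfl
    have h5 : (0 : ℝ) ≤ b i := h3.1
    linarith
  · obtain ⟨z, hz, hmax⟩ := hTc.exists_isMaxOn ⟨x, hx⟩ hci
    obtain ⟨y, hy, b, hb, hzb⟩ := hpre z hz
    have h1 : y i ≤ z i := hmax hy
    have h2 : x i ≤ z i := hmax hx
    have h3 := lt_bound ⟨b, hb⟩ i
    have h4 : z i = (y i + b i) / 12 := by rw [hzb]; rfl
    have h5 : (b i : ℝ) ≤ 9 := h3.2
    linarith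

theorem gen_disjoint {T : Set (Fin d → ℝ)} (hTc : IsCompact T)
    (hT : T = ⋃ b ∈ Dig d, tt b '' T) {b b' : Fin d → ℤ} (hne : b ≠ b') :
    Disjoint (tt b '' T) (tt b' '' T) := by
  rw [Set.disjoint_left]
  rintro x ⟨y, hy, rfl⟩ ⟨y', hy', h⟩
  apply hne
  funext i
  have h1 := congrFun h i
  unfold tt at h1
  have h2 := coord_bound hTc hT hy i
  have h3 := coord_bound hTc hT hy' i
  have h4 : y' i + (b' i : ℝ) = y i + (b i : ℝ) := by linarith
  have h5 : ((b i - b' i : ℤ) : ℝ) < 1 := by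
    push_cast
    linarith
  have h6 : ((-1 : ℤ) : ℝ) < ((b i - b' i : ℤ) : ℝ) := by
    push_cast
    linarith
  have h7 : b i - b' i < 1 := by exact_mod_cast h5
  have h8 : -1 < b i - b' i := by exact_mod_cast h6
  omega

theorem Spec_countable (d : ℕ) : (Spec d).Countable := by
  have h1 : Spec d ⊆ range fun k : Fin d → ℕ => fun i => 3 / 4 * (k i : ℝ) := by
    rintro l ⟨k, -, rfl⟩
    exact ⟨k, rfl⟩
  exact (countable_range _).mono h1

/-- The inverse of the real matrix. -/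
theorem inv_diag (n : ℕ) : (((Matrix.diagonal fun _ : Fin d => (12 : ℤ)) ^ n).map
    (Int.castRingHom ℝ))⁻¹ = Matrix.diagonal fun _ => ((12 : ℝ) ^ n)⁻¹ := by
  apply Matrix.inv_eq_right_inv
  rw [Matrix.diagonal_pow, Matrix.diagonal_map (map_zero _), Matrix.diagonal_mul_diagonal]
  rw [← Matrix.diagonal_one]
  congr 1
  funext i
  simp only [Pi.pow_apply, map_pow]
  have h1 : (Int.castRingHom ℝ) 12 = 12 := by simp
  rw [h1]
  exact mul_inv_cancel₀ (by positivity)

/-- iterated digit vectors -/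
theorem sum_pi_D1 (n : ℕ) (x : Fin d → ℝ) :
    ∑ b ∈ Fintype.piFinset (fun _ : Fin d => D1 n), ∏ i, ee (x i * (b i : ℝ)) = ∏ i, M n (x i) := by
  simp only [M]
  rw [Finset.prod_univ_sum]

theorem pi_D1_succ (n : ℕ) : Fintype.piFinset (fun _ : Fin d => D1 (n + 1)) =
    (Dig d ×ˢ Fintype.piFinset (fun _ : Fin d => D1 n)).image fun p => p.1 + (12 : ℤ) • p.2 := by
  ext c
  rw [Fintype.mem_piFinset, Finset.mem_image]
  constructor
  · intro h
    have h1 : ∀ i, ∃ p : ℤ × ℤ, p.1 ∈ dig ∧ p.2 ∈ D1 n ∧ p.1 + 12 * p.2 = c i := by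
      intro i
      have := h i
      rw [D1, Finset.mem_image] at this
      obtain ⟨p, hp, hpc⟩ := this
      rw [Finset.mem_product] at hp
      exact ⟨p, hp.1, hp.2, hpc⟩
    choose p hp1 hp2 hp3 using h1
    refine ⟨(fun i => (p i).1, fun i => (p i).2), ?_, ?_⟩
    · rw [Finset.mem_product, Dig, Fintype.mem_piFinset, Fintype.mem_piFinset]
      exact ⟨hp1, hp2⟩
    · funext i
      exact hp3 i
  · rintro ⟨⟨b, a⟩, h, rfl⟩ i
    rw [Finset.mem_product, Dig, Fintype.mem_piFinset, Fintype.mem_piFinset] at h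
    rw [D1, Finset.mem_image]
    exact ⟨(b i, a i), Finset.mem_product.2 ⟨h.1 i, h.2 i⟩, rfl⟩

end Pool.Agent.W5h51.SP
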