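import Pool.Agent.W5h51.SP.Trig
import Pool.Agent.W5h51.SP.Crit

set_option autoImplicit false

open Filter Topology Set MeasureTheory

namespace Pool.Agent.W5h51.SP

open Pool.Agent.W5h51.SO

/-- `exp (2 π i t)` -/
noncomputable def ee (t : ℝ) : ℂ := Complex.exp (2 * Real.pi * Complex.I * (t : ℂ))

theorem ee_add (s t : ℝ) : ee (s + t) = ee s * ee t := by
  unfold ee
  rw [← Complex.exp_add]
  congr 1
  push_cast
  ring

theorem ee_zero : ee 0 = 1 := by simp [ee]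

theorem chr_eq_prod {d : ℕ} (l x : Fin d → ℝ) : chr l x = ∏ i, ee (l i * x i) := by
  unfold chr ee
  rw [← Complex.exp_sum]
  congr 1
  push_cast
  rw [Finset.mul_sum]

theorem norm_one_add_ee (t : ℝ) : ‖1 + ee t‖ ^ 2 = 4 * g t := by
  have h1 : 1 + ee t = 2 * Real.cos (Real.pi * t) * Complex.exp ((Real.pi * t : ℝ) * Complex.I) := by
    have h2 : ee t = Complex.exp ((Real.pi * t : ℝ) * Complex.I) *
        Complex.exp ((Real.pi * t : ℝ) * Complex.I) := by
      rw [← Complex.exp_add, ee]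
      congr 1
      push_cast
      ring
    have h3 : (1 : ℂ) = Complex.exp (-((Real.pi * t : ℝ) * Complex.I)) *
        Complex.exp ((Real.pi * t : ℝ) * Complex.I) := by
      rw [← Complex.exp_add]
      simp
    have h4 : (2 : ℂ) * (Real.cos (Real.pi * t) : ℂ) = Complex.exp ((Real.pi * t : ℝ) * Complex.I) +
        Complex.exp (-((Real.pi * t : ℝ) * Complex.I)) := by
      rw [Complex.ofReal_cos, Complex.cos]
      rw [neg_mul]
      ring
    rw [h4, h2]
    conv_lhs => rw [h3]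
    ring
  rw [h1, norm_mul, Complex.norm_exp_ofReal_mul_I, mul_one, norm_mul, Complex.norm_real, mul_pow]
  simp only [Complex.norm_ofNat, Real.norm_eq_abs, sq_abs]
  rw [g]
  norm_num

/-- the digits -/
def dig : Finset ℤ := {0, 1, 8, 9}

/-- the digit vectors -/
def Dig (d : ℕ) : Finset (Fin d → ℤ) := Fintype.piFinset fun _ => dig

theorem card_Dig (d : ℕ) : (Dig d).card = 4 ^ d := by
  rw [Dig, Fintype.card_piFinset]
  simp [dig]

theorem sum_dig (t : ℝ) : ∑ a ∈ dig, ee (t * a) = (1 + ee t) * (1 + ee (8 * t)) := by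
  have h9 : ee (t * 9) = ee t * ee (8 * t) := by
    rw [← ee_add]
    congr 1
    ring
  simp only [dig]
  rw [Finset.sum_insert (by decide), Finset.sum_insert (by decide), Finset.sum_insert (by decide),
    Finset.sum_singleton]
  push_cast
  rw [mul_zero, ee_zero, mul_one, h9, mul_comm t 8]
  ring

/-- the maps of the system -/
noncomputable def tt {d : ℕ} (b : Fin d → ℤ) (x : Fin d → ℝ) : Fin d → ℝ :=
  fun i => (x i + b i) / 12

theorem continuous_tt {d : ℕ} (b : Fin d → ℤ) : Continuous (tt b) := by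
  unfold tt
  fun_prop

theorem chr_tt {d : ℕ} (l x : Fin d → ℝ) (b : Fin d → ℤ) :
    chr l (tt b x) = (∏ i, ee (l i / 12 * b i)) * chr (fun i => l i / 12) x := by
  rw [chr_eq_prod, chr_eq_prod, ← Finset.prod_mul_distrib]
  refine Finset.prod_congr rfl fun i _ => ?_
  rw [← ee_add, tt]
  congr 1
  ring

section

variable {d : ℕ} {μ : Measure (Fin d → ℝ)} [IsProbabilityMeasure μ]
  (hμ : μ = ∑ b ∈ Dig d, ((Dig d).card : ENNReal)⁻¹ • μ.map (tt b))

include hμ

theorem F_eq (ξ : Fin d → ℝ) : ∫ x, chr ξ x ∂μ = (4 ^ d : ℂ)⁻¹ *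
    (∏ i, ∑ a ∈ dig, ee (ξ i / 12 * a)) * ∫ x, chr (fun i => ξ i / 12) x ∂μ := by
  have hint : ∀ (P : Measure (Fin d → ℝ)) [IsFiniteMeasure P] (l : Fin d → ℝ),
      Integrable (chr l) P := fun P _ l =>
    (memLp_one_iff_integrable.1 (MemLp.of_bound (continuous_chr l).aestronglyMeasurable 1
      (Eventually.of_forall fun x => (norm_chr l x).le)))
  have hfin : ∀ b : Fin d → ℤ, IsFiniteMeasure (((Dig d).card : ENNReal)⁻¹ • μ.map (tt b)) := by
    intro b
    apply Measure.smul_finite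
    rw [Ne, ENNReal.inv_eq_top, card_Dig]
    positivity
  conv_lhs => rw [hμ]
  rw [integral_finsetSum_measure (fun b _ => hint _ _)]
  have h1 : ∀ b ∈ Dig d, ∫ x, chr ξ x ∂(((Dig d).card : ENNReal)⁻¹ • μ.map (tt b)) =
      (4 ^ d : ℂ)⁻¹ * (∏ i, ee (ξ i / 12 * b i)) * ∫ x, chr (fun i => ξ i / 12) x ∂μ := by
    intro b _
    rw [integral_smul_measure, integral_map (continuous_tt b).aemeasurable
      (continuous_chr ξ).aestronglyMeasurable]
    simp_rw [chr_tt]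
    have hc : ((((4 ^ d : ℕ) : ENNReal)⁻¹).toReal : ℂ) = (4 ^ d : ℂ)⁻¹ := by
      rw [ENNReal.toReal_inv, ENNReal.toReal_natCast]
      push_cast
      rfl
    rw [integral_const_mul, card_Dig, Complex.real_smul, hc]
    ring
  rw [Finset.sum_congr rfl h1, ← Finset.sum_mul, ← Finset.mul_sum, Dig, Finset.prod_univ_sum]

theorem F_sq (ξ : Fin d → ℝ) : ‖∫ x, chr ξ x ∂μ‖ ^ 2 =
    (∏ i, (g (ξ i / 12) * g (8 * (ξ i / 12)))) * ‖∫ x, chr (fun i => ξ i / 12) x ∂μ‖ ^ 2 := by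
  rw [F_eq hμ ξ, norm_mul, mul_pow, norm_mul, mul_pow, norm_prod, ← Finset.prod_pow]
  congr 1
  have h1 : ∀ i ∈ (Finset.univ : Finset (Fin d)), ‖∑ a ∈ dig, ee (ξ i / 12 * a)‖ ^ 2 =
      16 * (g (ξ i / 12) * g (8 * (ξ i / 12))) := by
    intro i _
    rw [sum_dig, norm_mul, mul_pow, norm_one_add_ee, norm_one_add_ee]
    ring
  rw [Finset.prod_congr rfl h1, Finset.prod_mul_distrib, Finset.prod_const, Finset.card_univ,
    Fintype.card_fin, norm_inv, norm_pow, Complex.norm_ofNat, ← mul_assoc, inv_pow, ← pow_mul,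
    mul_comm d 2, pow_mul]
  norm_num

/-- iteration of the functional equation -/
theorem F_iter (n : ℕ) (ξ : Fin d → ℝ) :
    ‖∫ x, chr ξ x ∂μ‖ ^ 2 * ∏ i, g (2 * (ξ i / 12 ^ n) / 3) =
      (∏ i, h n (ξ i)) * ‖∫ x, chr (fun i => ξ i / 12 ^ n) x ∂μ‖ ^ 2 := by
  induction n generalizing ξ with
  | zero =>
    simp only [pow_zero, div_one, h, q, mul_one]
    ring
  | succ n ih =>
    have h1 := ih (fun i => ξ i / 12)
    have e1 : ∀ i, ξ i / 12 / 12 ^ n = ξ i / 12 ^ (n + 1) := fun i => by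
      rw [div_div, pow_succ']
    simp only [e1] at h1
    rw [F_sq hμ ξ, mul_assoc, h1, ← mul_assoc, ← Finset.prod_mul_distrib]
    congr 1
    refine Finset.prod_congr rfl fun i _ => ?_
    unfold h
    rw [q, w]
    have e2 : 8 * (ξ i / 12) = 2 * ξ i / 3 := by ring
    rw [e2]
    ring

theorem F_phi (ξ : Fin d → ℝ) : ‖∫ x, chr ξ x ∂μ‖ ^ 2 = ∏ i, phi (ξ i) := by
  have hz : ∀ i, Tendsto (fun n : ℕ => ξ i / 12 ^ n) atTop (𝓝 0) := fun i =>
    tendsto_const_nhds.div_atTop (tendsto_pow_atTop_atTop_of_one_lt (by norm_num))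
  have h1 : Tendsto (fun n : ℕ => ‖∫ x, chr ξ x ∂μ‖ ^ 2 * ∏ i, g (2 * (ξ i / 12 ^ n) / 3)) atTop
      (𝓝 (‖∫ x, chr ξ x ∂μ‖ ^ 2 * ∏ _i : Fin d, g (2 * 0 / 3))) := by
    apply Tendsto.const_mul
    refine tendsto_finsetProd _ fun i _ => ?_
    exact (continuous_g.tendsto _).comp (((hz i).const_mul 2).div_const 3)
  have h2 : Tendsto (fun n : ℕ => (∏ i, h n (ξ i)) * ‖∫ x, chr (fun i => ξ i / 12 ^ n) x ∂μ‖ ^ 2)
      atTop (𝓝 ((∏ i, phi (ξ i)) * ‖∫ x, chr (0 : Fin d → ℝ) x ∂μ‖ ^ 2)) := by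
    apply Tendsto.mul
    · exact tendsto_finsetProd _ fun i _ => h_tendsto _
    · apply Tendsto.pow
      apply Tendsto.norm
      apply tendsto_integral_of_dominated_convergence (fun _ => (1 : ℝ))
      · exact fun n => (continuous_chr _).aestronglyMeasurable
      · exact integrable_const _
      · exact fun n => Eventually.of_forall fun x => (norm_chr _ x).le
      · refine Eventually.of_forall fun x => ?_
        have hc : Continuous fun l : Fin d → ℝ => chr l x := by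
          unfold chr
          fun_prop
        have h3 : Tendsto (fun n : ℕ => (fun i => ξ i / 12 ^ n : Fin d → ℝ)) atTop (𝓝 0) :=
          tendsto_pi_nhds.2 hz
        exact (hc.tendsto _).comp h3
  simp_rw [F_iter hμ _ ξ] at h1
  have h3 := tendsto_nhds_unique h1 h2
  have h4 : ∫ x, chr (0 : Fin d → ℝ) x ∂μ = 1 := by
    simp_rw [chr_zero]
    simp
  rw [h4] at h3
  simpa [g_zero] using h3

end

/-- the spectrum -/
def Spec (d : ℕ) : Set (Fin d → ℝ) :=
  {l | ∃ k : Fin d → ℕ, (∀ i, ∃ n, k i ∈ K n) ∧ l = fun i => 3 / 4 * (k i : ℝ)}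

theorem h_orth {n k k' : ℕ} (hk : k ∈ K n) (hk' : k' ∈ K n) (hne : k ≠ k') :
    h n (3 / 4 * k - 3 / 4 * k') = 0 := by
  have h1 := sum_h n (-(3 / 4 * (k' : ℝ)))
  rw [← Finset.add_sum_erase _ _ hk'] at h1
  have h2 : -(3 / 4 * (k' : ℝ)) + 3 / 4 * (k' : ℝ) = 0 := by ring
  rw [h2, h_zero] at h1
  have h3 : ∑ k ∈ (K n).erase k', h n (-(3 / 4 * (k' : ℝ)) + 3 / 4 * (k : ℝ)) = 0 := by linarith
  rw [Finset.sum_eq_zero_iff_of_nonneg fun _ _ => h_nonneg _ _] at h3
  have h4 := h3 k (Finset.mem_erase.2 ⟨hne, hk⟩)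
  rw [← h4]
  congr 1
  ring

theorem phi_orth {n n' k k' : ℕ} (hk : k ∈ K n) (hk' : k' ∈ K n') (hne : k ≠ k') :
    phi (3 / 4 * k - 3 / 4 * k') = 0 := by
  rw [phi_eq (max n n'), h_orth (K_mono (le_max_left _ _) hk) (K_mono (le_max_right _ _) hk') hne,
    zero_mul]

section

variable {d : ℕ} (ξ : Fin d → ℝ)

open Classical in
/-- the terms of the sum -/
noncomputable def G (k : Fin d → ℕ) : ℝ :=
  if ∀ i, ∃ n, k i ∈ K n then ∏ i, phi (-ξ i + 3 / 4 * k i) else 0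

open Classical in
/-- their approximations -/
noncomputable def Gn (n : ℕ) (k : Fin d → ℕ) : ℝ :=
  if ∀ i, k i ∈ K n then ∏ i, h n (-ξ i + 3 / 4 * k i) else 0

theorem G_nonneg (k : Fin d → ℕ) : 0 ≤ G ξ k := by
  unfold G
  split_ifs
  · exact Finset.prod_nonneg fun i _ => phi_nonneg _
  · exact le_refl _

theorem Gn_nonneg (n : ℕ) (k : Fin d → ℕ) : 0 ≤ Gn ξ n k := by
  unfold Gn
  split_ifs
  · exact Finset.prod_nonneg fun i _ => h_nonneg _ _
  · exact le_refl _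

theorem Gn_hasSum (n : ℕ) : HasSum (Gn ξ n) 1 := by
  have h1 : ∑ k ∈ Fintype.piFinset (fun _ : Fin d => K n), Gn ξ n k = 1 := by
    have h2 : ∀ k ∈ Fintype.piFinset (fun _ : Fin d => K n), Gn ξ n k =
        ∏ i, h n (-ξ i + 3 / 4 * k i) := by
      intro k hk
      rw [Fintype.mem_piFinset] at hk
      rw [Gn, if_pos hk]
    rw [Finset.sum_congr rfl h2, ← Finset.prod_univ_sum (fun _ : Fin d => K n)
      (fun i k => h n (-ξ i + 3 / 4 * (k : ℝ)))]
    exact Finset.prod_eq_one fun i _ => sum_h n _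
  rw [← h1]
  apply hasSum_sum_of_ne_finset_zero
  intro k hk
  rw [Fintype.mem_piFinset] at hk
  rw [Gn, if_neg hk]

theorem Gn_tendsto (k : Fin d → ℕ) : Tendsto (fun n => Gn ξ n k) atTop (𝓝 (G ξ k)) := by
  by_cases hk : ∀ i, ∃ n, k i ∈ K n
  · rw [G, if_pos hk]
    choose N hN using hk
    have h1 : ∀ᶠ n in atTop, ∀ i, k i ∈ K n := by
      rw [eventually_all]
      intro i
      filter_upwards [eventually_ge_atTop (N i)] with n hn
      exact K_mono hn (hN i)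
    have h2 : Tendsto (fun n => ∏ i, h n (-ξ i + 3 / 4 * k i)) atTop
        (𝓝 (∏ i, phi (-ξ i + 3 / 4 * k i))) := tendsto_finsetProd _ fun i _ => h_tendsto _
    refine h2.congr' ?_
    filter_upwards [h1] with n hn
    rw [Gn, if_pos hn]
  · rw [G, if_neg hk]
    refine tendsto_const_nhds.congr fun n => ?_
    rw [Gn, if_neg]
    intro h1
    exact hk fun i => ⟨n, h1 i⟩

theorem G_summable : Summable (G ξ) := by
  apply summable_of_sum_le (c := 1) (G_nonneg ξ)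
  intro s
  have h1 : Tendsto (fun n => ∑ k ∈ s, Gn ξ n k) atTop (𝓝 (∑ k ∈ s, G ξ k)) :=
    tendsto_finsetSum _ fun k _ => Gn_tendsto ξ k
  refine le_of_tendsto' h1 fun n => ?_
  exact sum_le_hasSum s (fun k _ => Gn_nonneg ξ n k) (Gn_hasSum ξ n)

theorem Gn_le : ∀ᶠ n in atTop, ∀ k, ‖Gn ξ n k‖ ≤ 10 ^ d * G ξ k := by
  have hpow : Tendsto (fun n : ℕ => (6 / 11 : ℝ) * 12 ^ n) atTop atTop :=
    (tendsto_pow_atTop_atTop_of_one_lt (by norm_num)).const_mul_atTop (by norm_num)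
  have h1 : ∀ᶠ n : ℕ in atTop, ∀ i, |ξ i| ≤ 6 / 11 * 12 ^ n := by
    rw [eventually_all]
    exact fun i => hpow.eventually_ge_atTop _
  filter_upwards [h1] with n hn k
  rw [Real.norm_eq_abs, abs_of_nonneg (Gn_nonneg ξ n k)]
  by_cases hk : ∀ i, k i ∈ K n
  · rw [Gn, if_pos hk, G, if_pos fun i => ⟨n, hk i⟩]
    have h2 : ∀ i, h n (-ξ i + 3 / 4 * k i) ≤ 10 * phi (-ξ i + 3 / 4 * k i) := by
      intro i
      rw [phi_eq n]
      have h3 : |(-ξ i + 3 / 4 * k i) / 12 ^ n| ≤ 3 := by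
        have hp : (0 : ℝ) < 12 ^ n := by positivity
        rw [abs_div, abs_of_pos hp, div_le_iff₀ hp]
        have h4 := K_bound (hk i)
        have h5 := hn i
        have h6 : |(3 / 4 * (k i) : ℝ)| = 3 / 4 * k i := abs_of_nonneg (by positivity)
        calc |-ξ i + 3 / 4 * (k i : ℝ)| ≤ |-ξ i| + |3 / 4 * (k i : ℝ)| := abs_add_le _ _
          _ ≤ 6 / 11 * 12 ^ n + 27 / 11 * 12 ^ n := by
            rw [abs_neg, h6]
            linarith
          _ = 3 * 12 ^ n := by ring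
      have h4 := psi_lower _ h3
      have h5 := h_nonneg n (-ξ i + 3 / 4 * k i)
      nlinarith
    calc ∏ i, h n (-ξ i + 3 / 4 * k i) ≤ ∏ i, (10 * phi (-ξ i + 3 / 4 * k i)) :=
          Finset.prod_le_prod (fun i _ => h_nonneg _ _) fun i _ => h2 i
      _ = 10 ^ d * ∏ i, phi (-ξ i + 3 / 4 * k i) := by
          rw [Finset.prod_mul_distrib, Finset.prod_const, Finset.card_univ, Fintype.card_fin]
  · rw [Gn, if_neg hk]
    exact mul_nonneg (by positivity) (G_nonneg ξ k)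

theorem G_tsum : ∑' k, G ξ k = 1 := by
  have h1 := tendsto_tsum_of_dominated_convergence ((G_summable ξ).mul_left (10 ^ d))
    (Gn_tendsto ξ) (Gn_le ξ)
  have h2 : ∀ n, ∑' k, Gn ξ n k = 1 := fun n => (Gn_hasSum ξ n).tsum_eq
  simp_rw [h2] at h1
  exact (tendsto_nhds_unique h1 tendsto_const_nhds)

end

/-- The measure is spectral. -/
theorem spectral {d : ℕ} {μ : Measure (Fin d → ℝ)} [IsProbabilityMeasure μ]
    (hμ : μ = ∑ b ∈ Dig d, ((Dig d).card : ENNReal)⁻¹ • μ.map (tt b)) :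
    ∃ e : Spec d → Lp ℂ 2 μ, (∀ l : Spec d, (e l : (Fin d → ℝ) → ℂ) =ᵐ[μ] chr l) ∧
      Orthonormal ℂ e ∧ (Submodule.span ℂ (Set.range e)).topologicalClosure = ⊤ := by
  refine crit μ (Spec d) ?_ ?_
  · rintro l ⟨k, hk, rfl⟩ l' ⟨k', hk', rfl⟩ hne
    obtain ⟨i, hi⟩ : ∃ i, k i ≠ k' i := by
      by_contra hc
      push Not at hc
      apply hne
      funext i
      rw [hc i]
    have h1 := F_phi hμ ((fun i => 3 / 4 * (k i : ℝ)) - fun i => 3 / 4 * (k' i : ℝ))
    obtain ⟨n, hn⟩ := hk i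
    obtain ⟨n', hn'⟩ := hk' i
    have h2 : ∏ i, phi (((fun i => 3 / 4 * (k i : ℝ)) - fun i => 3 / 4 * (k' i : ℝ)) i) = 0 := by
      apply Finset.prod_eq_zero (Finset.mem_univ i)
      exact phi_orth hn hn' hi
    rw [h2] at h1
    exact norm_eq_zero.1 (pow_eq_zero_iff (two_ne_zero)|>.1 h1)
  · intro ξ
    have hval : ∀ l : Fin d → ℝ, ‖∫ x, chr (ξ - l) x ∂μ‖ ^ 2 = ∏ i, phi (-ξ i + l i) := by
      intro l
      have h1 : ∫ x, chr (ξ - l) x ∂μ = (starRingEnd ℂ) (∫ x, chr (-ξ + l) x ∂μ) := by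
        rw [← integral_conj]
        congr 1
        funext x
        rw [← chr_neg]
        congr 1
        abel
      rw [h1, RCLike.norm_conj, F_phi hμ]
      rfl
    simp_rw [hval]
    let A : Set (Fin d → ℕ) := {k | ∀ i, ∃ n, k i ∈ K n}
    let e : A ≃ Spec d := Equiv.ofBijective (fun k => ⟨fun i => 3 / 4 * (k.1 i : ℝ), k.1, k.2, rfl⟩) (by
      constructor
      · rintro ⟨k, hk⟩ ⟨k', hk'⟩ heq
        apply Subtype.ext
        funext i
        have := congrFun (congrArg Subtype.val heq) i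
        simp only at this
        have h2 : (k i : ℝ) = k' i := by linarith
        exact_mod_cast h2
      · rintro ⟨l, k, hk, rfl⟩
        exact ⟨⟨k, hk⟩, rfl⟩)
    rw [← e.tsum_eq]
    have h1 : ∀ k : A, ∏ i, phi (-ξ i + (e k : Fin d → ℝ) i) = G ξ k.1 := by
      intro k
      have h2 : ∀ i, ∃ n, k.1 i ∈ K n := k.2
      rw [G, if_pos h2]
      rfl
    simp_rw [h1]
    rw [tsum_subtype A (G ξ), ← G_tsum ξ]
    congr 1
    funext k
    by_cases hk : k ∈ A
    · rw [indicator_of_mem hk]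
    · have h2 : ¬ ∀ i, ∃ n, k i ∈ K n := hk
      rw [indicator_of_notMem hk, G, if_neg h2]

end Pool.Agent.W5h51.SP
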