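import Mathlib

set_option autoImplicit false

open Filter Topology Set

namespace Pool.Agent.W5h51.SP

/-- `cos² (π t)` -/
noncomputable def g (t : ℝ) : ℝ := Real.cos (Real.pi * t) ^ 2

theorem g_nonneg (t : ℝ) : 0 ≤ g t := sq_nonneg _

theorem g_le_one (t : ℝ) : g t ≤ 1 := Real.cos_sq_le_one _

theorem g_zero : g 0 = 1 := by simp [g]

theorem g_add_int (t : ℝ) (n : ℤ) : g (t + n) = g t := by
  unfold g
  rw [mul_add, mul_comm Real.pi (n : ℝ), Real.cos_add_int_mul_pi, mul_pow]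
  have : ((-1 : ℝ) ^ n) ^ 2 = 1 := by
    rw [← zpow_natCast, ← zpow_mul, mul_comm, zpow_mul]
    simp
  rw [this, one_mul]

theorem g_add_half (t : ℝ) : g t + g (t + 1 / 2) = 1 := by
  unfold g
  have : Real.pi * (t + 1 / 2) = Real.pi * t + Real.pi / 2 := by ring
  rw [this, Real.cos_add_pi_div_two, neg_sq, Real.cos_sq_add_sin_sq]

theorem g_lower (t : ℝ) : 1 - Real.pi ^ 2 * t ^ 2 ≤ g t := by
  unfold g
  have h1 := Real.sin_sq_le_sq (x := Real.pi * t)
  have h2 := Real.sin_sq_add_cos_sq (Real.pi * t)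
  nlinarith

theorem continuous_g : Continuous g := by
  unfold g
  fun_prop

/-- the mask of the auxiliary digit set `{0, 2/3, 1, 5/3}` -/
noncomputable def w (s : ℝ) : ℝ := g s * g (2 * s / 3)

theorem w_nonneg (s : ℝ) : 0 ≤ w s := mul_nonneg (g_nonneg _) (g_nonneg _)

theorem w_le_one (s : ℝ) : w s ≤ 1 := mul_le_one₀ (g_le_one _) (g_nonneg _) (g_le_one _)

theorem w_add (s : ℝ) (j : ℕ) : w (s + 9 * j) = w s := by
  unfold w
  have h1 : g (s + 9 * j) = g s := by
    have := g_add_int s (9 * j)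
    push_cast at this
    exact this
  have h2 : g (2 * (s + 9 * j) / 3) = g (2 * s / 3) := by
    have := g_add_int (2 * s / 3) (6 * j)
    push_cast at this
    rw [← this]
    congr 1
    ring
  rw [h1, h2]

theorem w_sum (s : ℝ) : ∑ j ∈ Finset.range 4, w (s + 3 / 4 * j) = 1 := by
  simp only [Finset.sum_range_succ, Finset.range_zero, Finset.sum_empty, zero_add, w]
  push_cast
  have e0 : s + 3 / 4 * 0 = s := by ring
  have e1 : g (s + 3 / 4 * 1) + g (s + 3 / 4 * 3) = 1 := by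
    have h1 := g_add_half (s + 3 / 4)
    have h2 : g (s + 3 / 4 * 3) = g (s + 3 / 4 + 1 / 2) := by
      have := g_add_int (s + 3 / 4 + 1 / 2) 1
      push_cast at this
      rw [← this]
      congr 1
      ring
    rw [h2, mul_one]
    exact h1
  have e2 : g s + g (s + 3 / 4 * 2) = 1 := by
    have h1 := g_add_half s
    have h2 : g (s + 3 / 4 * 2) = g (s + 1 / 2) := by
      have := g_add_int (s + 1 / 2) 1
      push_cast at this
      rw [← this]
      congr 1
      ring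
    rw [h2]
    exact h1
  have f0 : 2 * (s + 3 / 4 * 0) / 3 = 2 * s / 3 := by ring
  have f1 : g (2 * (s + 3 / 4 * 1) / 3) = g (2 * s / 3 + 1 / 2) := by
    congr 1
    ring
  have f2 : g (2 * (s + 3 / 4 * 2) / 3) = g (2 * s / 3) := by
    have := g_add_int (2 * s / 3) 1
    push_cast at this
    rw [← this]
    congr 1
    ring
  have f3 : g (2 * (s + 3 / 4 * 3) / 3) = g (2 * s / 3 + 1 / 2) := by
    have := g_add_int (2 * s / 3 + 1 / 2) 1
    push_cast at this
    rw [← this]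
    congr 1
    ring
  rw [e0, f1, f2, f3]
  have h3 := g_add_half (2 * s / 3)
  have h4 : g s * g (2 * s / 3) + g (s + 3 / 4 * 1) * g (2 * s / 3 + 1 / 2) +
      g (s + 3 / 4 * 2) * g (2 * s / 3) + g (s + 3 / 4 * 3) * g (2 * s / 3 + 1 / 2) =
      (g s + g (s + 3 / 4 * 2)) * g (2 * s / 3) +
      (g (s + 3 / 4 * 1) + g (s + 3 / 4 * 3)) * g (2 * s / 3 + 1 / 2) := by ring
  rw [h4, e1, e2]
  linarith

theorem w_lower (s : ℝ) (hs : Real.pi ^ 2 * s ^ 2 ≤ 1) : 1 - 13 / 9 * Real.pi ^ 2 * s ^ 2 ≤ w s := by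
  unfold w
  have h1 := g_lower s
  have h2 := g_lower (2 * s / 3)
  have h3 : Real.pi ^ 2 * (2 * s / 3) ^ 2 = 4 / 9 * (Real.pi ^ 2 * s ^ 2) := by ring
  rw [h3] at h2
  set z := Real.pi ^ 2 * s ^ 2 with hz
  have hz0 : 0 ≤ z := by positivity
  have h4 : (1 - z) * (1 - 4 / 9 * z) ≤ g s * g (2 * s / 3) :=
    mul_le_mul h1 h2 (by nlinarith) (g_nonneg _)
  nlinarith

/-- the partial products -/
noncomputable def q : ℕ → ℝ → ℝ
  | 0, _ => 1
  | n + 1, t => w (t / 12) * q n (t / 12)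

theorem q_nonneg (n : ℕ) (t : ℝ) : 0 ≤ q n t := by
  induction n generalizing t with
  | zero => exact zero_le_one
  | succ n ih => exact mul_nonneg (w_nonneg _) (ih _)

theorem q_le_one (n : ℕ) (t : ℝ) : q n t ≤ 1 := by
  induction n generalizing t with
  | zero => exact le_refl _
  | succ n ih => exact mul_le_one₀ (w_le_one _) (q_nonneg _ _) (ih _)

theorem q_add (m n : ℕ) (t : ℝ) : q (m + n) t = q n t * q m (t / 12 ^ n) := by
  induction n generalizing t with
  | zero => simp [q]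
  | succ n ih =>
    rw [← add_assoc, q, ih, q, pow_succ', div_div, mul_assoc]

theorem q_antitone (t : ℝ) : Antitone fun n => q n t := by
  apply antitone_nat_of_succ_le
  intro n
  rw [add_comm n 1, q_add]
  exact mul_le_of_le_one_right (q_nonneg _ _) (q_le_one _ _)

/-- the infinite product -/
noncomputable def psi (t : ℝ) : ℝ := ⨅ n, q n t

theorem q_tendsto (t : ℝ) : Tendsto (fun n => q n t) atTop (𝓝 (psi t)) :=
  tendsto_atTop_ciInf (q_antitone t) ⟨0, by
    rintro _ ⟨n, rfl⟩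
    exact q_nonneg n t⟩

theorem psi_eq (n : ℕ) (t : ℝ) : psi t = q n t * psi (t / 12 ^ n) := by
  have h1 : Tendsto (fun m => q (m + n) t) atTop (𝓝 (psi t)) :=
    (q_tendsto t).comp (tendsto_add_atTop_nat n)
  have h2 : Tendsto (fun m => q (m + n) t) atTop (𝓝 (q n t * psi (t / 12 ^ n))) := by
    simp_rw [q_add]
    exact (q_tendsto _).const_mul _
  exact tendsto_nhds_unique h1 h2

theorem psi_nonneg (t : ℝ) : 0 ≤ psi t := ge_of_tendsto' (q_tendsto t) fun n => q_nonneg n t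

theorem q_lower (n : ℕ) (x : ℝ) (hx : |x| ≤ 3) : 1 - x ^ 2 / 10 ≤ q n x := by
  have hpi : Real.pi ^ 2 ≤ 9.9 := by
    have h1 := Real.pi_lt_d2
    have h2 := Real.pi_pos
    have h3 : Real.pi < 3.1416 := Real.pi_lt_d4
    nlinarith
  induction n generalizing x with
  | zero =>
    rw [q]
    nlinarith [sq_nonneg x]
  | succ n ih =>
    rw [q]
    have hx2 : x ^ 2 ≤ 9 := by
      have := sq_le_sq' (by linarith [abs_le.1 hx]) (abs_le.1 hx).2
      linarith
    have hx' : |x / 12| ≤ 3 := by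
      rw [abs_div, abs_of_pos (by norm_num : (0 : ℝ) < 12)]
      have := abs_nonneg x
      rw [div_le_iff₀ (by norm_num)]
      linarith
    have h1 := ih (x / 12) hx'
    have hpp : 0 ≤ Real.pi ^ 2 := sq_nonneg _
    have h2 := w_lower (x / 12) (by
      have : (x / 12) ^ 2 = x ^ 2 / 144 := by ring
      rw [this]
      nlinarith)
    have e1 : (x / 12) ^ 2 = x ^ 2 / 144 := by ring
    rw [e1] at h1 h2
    have hx0 : 0 ≤ x ^ 2 := sq_nonneg x
    have h3 : 1 - 14.3 * (x ^ 2 / 144) ≤ w (x / 12) := by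
      refine le_trans ?_ h2
      have : Real.pi ^ 2 * x ^ 2 ≤ 9.9 * x ^ 2 := by nlinarith
      nlinarith
    have h4 : (1 - 14.3 * (x ^ 2 / 144)) * (1 - x ^ 2 / 144 / 10) ≤ w (x / 12) * q n (x / 12) :=
      mul_le_mul h3 h1 (by nlinarith) (w_nonneg _)
    refine le_trans ?_ h4
    nlinarith [mul_nonneg hx0 hx0]

theorem psi_lower (x : ℝ) (hx : |x| ≤ 3) : 1 / 10 ≤ psi x := by
  refine ge_of_tendsto' (q_tendsto x) fun n => le_trans ?_ (q_lower n x hx)
  have hx2 : x ^ 2 ≤ 9 := by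
    have := sq_le_sq' (by linarith [abs_le.1 hx]) (abs_le.1 hx).2
    linarith
  linarith

/-- the numbers `∑ 12^k j_k` with `j_k ∈ {0, 1, 2, 3}`, `k < n` -/
def J : ℕ → Finset ℕ
  | 0 => {0}
  | n + 1 => (Finset.range 4 ×ˢ J n).image fun p => p.1 + 12 * p.2

/-- the numbers `e + 12 j` with `e ∈ {0, 1}` and `j ∈ J n` -/
def K (n : ℕ) : Finset ℕ := (Finset.range 2 ×ˢ J n).image fun p => p.1 + 12 * p.2

theorem sum_J_succ (n : ℕ) (f : ℕ → ℝ) :
    ∑ j ∈ J (n + 1), f j = ∑ a ∈ Finset.range 4, ∑ j ∈ J n, f (a + 12 * j) := by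
  rw [J, Finset.sum_image, Finset.sum_product]
  rintro ⟨a, j⟩ h ⟨a', j'⟩ h' heq
  simp only [Finset.coe_product, Finset.coe_range, mem_prod, mem_Iio] at h h'
  simp only at heq
  rw [Prod.mk.injEq]
  omega

theorem sum_K (n : ℕ) (f : ℕ → ℝ) :
    ∑ j ∈ K n, f j = ∑ a ∈ Finset.range 2, ∑ j ∈ J n, f (a + 12 * j) := by
  rw [K, Finset.sum_image, Finset.sum_product]
  rintro ⟨a, j⟩ h ⟨a', j'⟩ h' heq
  simp only [Finset.coe_product, Finset.coe_range, mem_prod, mem_Iio] at h h'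
  simp only at heq
  rw [Prod.mk.injEq]
  omega

theorem J_mono : Monotone J := by
  apply monotone_nat_of_le_succ
  intro n
  induction n with
  | zero =>
    intro j hj
    simp only [J, Finset.mem_singleton] at hj
    subst hj
    simp only [J, Finset.mem_image, Finset.mem_product, Finset.mem_range, Finset.mem_singleton,
      Prod.exists]
    exact ⟨0, 0, ⟨by norm_num, rfl⟩, rfl⟩
  | succ n ih =>
    intro j hj
    rw [J, Finset.mem_image] at hj
    obtain ⟨⟨a, b⟩, hab, rfl⟩ := hj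
    rw [Finset.mem_product] at hab
    rw [J, Finset.mem_image]
    exact ⟨(a, b), Finset.mem_product.2 ⟨hab.1, ih hab.2⟩, rfl⟩

theorem K_mono : Monotone K := by
  intro m n h k hk
  rw [K, Finset.mem_image] at hk ⊢
  obtain ⟨⟨a, b⟩, hab, rfl⟩ := hk
  rw [Finset.mem_product] at hab
  exact ⟨(a, b), Finset.mem_product.2 ⟨hab.1, J_mono h hab.2⟩, rfl⟩

theorem J_bound {n j : ℕ} (h : j ∈ J n) : 11 * j + 3 ≤ 3 * 12 ^ n := by
  induction n generalizing j with
  | zero =>
    simp only [J, Finset.mem_singleton] at h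
    subst h
    simp
  | succ n ih =>
    rw [J, Finset.mem_image] at h
    obtain ⟨⟨a, b⟩, hab, rfl⟩ := h
    rw [Finset.mem_product, Finset.mem_range] at hab
    have h1 := ih hab.2
    have h2 := hab.1
    rw [pow_succ]
    simp only at h1 h2 ⊢
    omega

theorem K_bound {n k : ℕ} (h : k ∈ K n) : (11 : ℝ) * (3 / 4 * k) ≤ 27 * 12 ^ n := by
  rw [K, Finset.mem_image] at h
  obtain ⟨⟨a, b⟩, hab, rfl⟩ := h
  rw [Finset.mem_product, Finset.mem_range] at hab
  have h1 := J_bound hab.2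
  have h2 := hab.1
  simp only at h1 h2 ⊢
  have h3 : (11 : ℝ) * b + 3 ≤ 3 * 12 ^ n := by exact_mod_cast h1
  have h4 : (a : ℝ) ≤ 1 := by
    have : a ≤ 1 := by omega
    exact_mod_cast this
  push_cast
  linarith

theorem sum_q (n : ℕ) (t : ℝ) : ∑ j ∈ J n, q n (t + 9 * j) = 1 := by
  induction n generalizing t with
  | zero => simp [J, q]
  | succ n ih =>
    rw [sum_J_succ]
    have h1 : ∀ a ∈ Finset.range 4, ∑ j ∈ J n, q (n + 1) (t + 9 * ((a + 12 * j : ℕ) : ℝ)) =
        w (t / 12 + 3 / 4 * a) := by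
      intro a _
      have h2 : ∀ j : ℕ, q (n + 1) (t + 9 * ((a + 12 * j : ℕ) : ℝ)) =
          w (t / 12 + 3 / 4 * a) * q n ((t / 12 + 3 / 4 * a) + 9 * j) := by
        intro j
        have h3 : (t + 9 * ((a + 12 * j : ℕ) : ℝ)) / 12 = (t / 12 + 3 / 4 * a) + 9 * j := by
          push_cast
          ring
        rw [q, h3, w_add]
      simp_rw [h2]
      rw [← Finset.mul_sum, ih, mul_one]
    rw [Finset.sum_congr rfl h1, w_sum]

/-- the partial products for the measure with digits `{0, 1, 8, 9}` -/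
noncomputable def h (n : ℕ) (t : ℝ) : ℝ := g (2 * t / 3) * q n t

/-- their limit -/
noncomputable def phi (t : ℝ) : ℝ := g (2 * t / 3) * psi t

theorem h_nonneg (n : ℕ) (t : ℝ) : 0 ≤ h n t := mul_nonneg (g_nonneg _) (q_nonneg _ _)

theorem phi_nonneg (t : ℝ) : 0 ≤ phi t := mul_nonneg (g_nonneg _) (psi_nonneg _)

theorem h_tendsto (t : ℝ) : Tendsto (fun n => h n t) atTop (𝓝 (phi t)) :=
  (q_tendsto t).const_mul _

theorem phi_eq (n : ℕ) (t : ℝ) : phi t = h n t * psi (t / 12 ^ n) := by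
  unfold phi h
  rw [psi_eq n t, mul_assoc]

theorem h_zero (n : ℕ) : h n 0 = 1 := by
  have : ∀ n, q n 0 = 1 := by
    intro n
    induction n with
    | zero => rfl
    | succ n ih =>
      rw [q, zero_div, ih, w, mul_zero, zero_div, g_zero]
      norm_num
  rw [h, this, mul_zero, zero_div, g_zero, mul_one]

theorem sum_h (n : ℕ) (t : ℝ) : ∑ k ∈ K n, h n (t + 3 / 4 * k) = 1 := by
  rw [sum_K]
  have h1 : ∀ a ∈ Finset.range 2, ∑ j ∈ J n, h n (t + 3 / 4 * ((a + 12 * j : ℕ) : ℝ)) =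
      g (2 * t / 3 + 1 / 2 * a) := by
    intro a _
    have h2 : ∀ j : ℕ, h n (t + 3 / 4 * ((a + 12 * j : ℕ) : ℝ)) =
        g (2 * t / 3 + 1 / 2 * a) * q n ((t + 3 / 4 * a) + 9 * j) := by
      intro j
      have h3 : t + 3 / 4 * ((a + 12 * j : ℕ) : ℝ) = (t + 3 / 4 * a) + 9 * j := by
        push_cast
        ring
      rw [h, h3]
      congr 1
      have := g_add_int (2 * t / 3 + 1 / 2 * a) (6 * j)
      push_cast at this
      rw [← this]
      congr 1
      ring
    simp_rw [h2]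
    rw [← Finset.mul_sum, sum_q, mul_one]
  rw [Finset.sum_congr rfl h1]
  simp only [Finset.sum_range_succ, Finset.range_zero, Finset.sum_empty, zero_add]
  push_cast
  rw [mul_zero, add_zero, mul_one]
  exact g_add_half _

end Pool.Agent.W5h51.SP
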